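import Mathlib

/-!
Colliding orbits in characteristic `p`: the polynomial `f = (x^p - x)^(p+1) + x` is not additive,
has `f(0) = 0`, and commutes with the translation `x ↦ x + 1`; so do all `f + λ`.
-/

set_option autoImplicit false

open Polynomial

namespace Pool.Agent.Results.MP_a5410e_nt.Counterexample

/-- `g (x + y) = g x + g y` for all `x, y` in the (algebraically closed) field. -/
def IsAdditive {K : Type} [Field K] (g : Polynomial K) : Prop :=
  ∀ x y : K, g.eval (x + y) = g.eval x + g.eval y

/-- The set of parameters `c` such that `b` is in the strict forward orbits of `a₁` and of `a₂`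
under `x ↦ f(x) + c`. -/
def collisionSet {K : Type} [Field K] (f : Polynomial K) (a₁ a₂ b : K) : Set K :=
  {c | ∃ m n : ℕ, 1 ≤ m ∧ 1 ≤ n ∧
    (fun x => f.eval x + c)^[m] a₁ = b ∧ (fun x => f.eval x + c)^[n] a₂ = b}

section aux

variable {K : Type} [Field K] (p : ℕ) [hp : Fact p.Prime] [CharP K p]

/-- The polynomial of the counterexample. -/
noncomputable def ff (K : Type) [Field K] (p : ℕ) : Polynomial K := (X ^ p - X) ^ (p + 1) + X

omit [CharP K p] in
theorem natDegree_ff : (ff K p).natDegree = p * (p + 1) := by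
  have h2 := hp.out.two_le
  have h1 : (X ^ p - X : Polynomial K).natDegree = p := by
    rw [natDegree_sub_eq_left_of_natDegree_lt] <;> simp
    omega
  have h3 : ((X ^ p - X : Polynomial K) ^ (p + 1)).natDegree = p * (p + 1) := by
    rw [natDegree_pow, h1, mul_comm]
  unfold ff
  rw [natDegree_add_eq_left_of_natDegree_lt, h3]
  rw [h3, natDegree_X]
  nlinarith

omit hp [CharP K p] in
theorem eval_ff (x : K) : (ff K p).eval x = (x ^ p - x) ^ (p + 1) + x := by simp [ff]

theorem eval_ff_add_one (x : K) : (ff K p).eval (x + 1) = (ff K p).eval x + 1 := by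
  rw [eval_ff, eval_ff, add_pow_char, one_pow]
  ring_nf

theorem eval_ff_add_nat (x : K) (j : ℕ) : (ff K p).eval (x + j) = (ff K p).eval x + j := by
  induction j with
  | zero => simp
  | succ j ih => rw [Nat.cast_succ, ← add_assoc, eval_ff_add_one, ih, add_assoc]

theorem iter_add_nat (c : K) (n : ℕ) (x : K) (j : ℕ) :
    (fun x => (ff K p).eval x + c)^[n] (x + j) = (fun x => (ff K p).eval x + c)^[n] x + j := by
  induction n with
  | zero => rfl
  | succ n ih =>
    rw [Function.iterate_succ_apply', Function.iterate_succ_apply', ih, eval_ff_add_nat]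
    ring

theorem iter_mul (c b : K) (k : ℕ) (h : (fun x => (ff K p).eval x + c)^[k] b + 1 = b) (j : ℕ) :
    (fun x => (ff K p).eval x + c)^[k * j] b + j = b := by
  induction j with
  | zero => simp
  | succ j ih =>
    rw [mul_add, mul_one, add_comm (k * j) k, Function.iterate_add_apply, Nat.cast_succ,
      ← add_assoc, ← iter_add_nat, ih, h]

/-- The `k`-th iterate of `b` as a polynomial in the parameter. -/
noncomputable def orb (f : Polynomial K) (b : K) : ℕ → Polynomial K
  | 0 => C b
  | k + 1 => f.comp (orb f b k) + X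

theorem eval_orb (f : Polynomial K) (b c : K) (k : ℕ) :
    (orb f b k).eval c = (fun x => f.eval x + c)^[k] b := by
  induction k with
  | zero => simp [orb]
  | succ k ih => rw [Function.iterate_succ_apply', ← ih]; simp [orb, eval_comp]

theorem natDegree_orb (f : Polynomial K) (hf : 2 ≤ f.natDegree) (b : K) (k : ℕ) :
    1 ≤ (orb f b (k + 1)).natDegree := by
  induction k with
  | zero =>
    simp only [orb, comp_C]
    rw [natDegree_add_eq_right_of_natDegree_lt] <;> simp
  | succ k ih =>
    have h : (f.comp (orb f b (k + 1))).natDegree = f.natDegree * (orb f b (k + 1)).natDegree :=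
      natDegree_comp
    have h2 : 2 ≤ (f.comp (orb f b (k + 1))).natDegree := by rw [h]; nlinarith
    rw [orb, natDegree_add_eq_left_of_natDegree_lt]
    · omega
    · rw [natDegree_X]; omega

theorem exists_root_of_natDegree [IsAlgClosed K] (g : Polynomial K) (hg : 1 ≤ g.natDegree) (z : K) :
    ∃ c, g.eval c = z := by
  have : (g - C z).degree ≠ 0 := by
    intro h
    have h1 := natDegree_eq_zero_iff_degree_le_zero.2 h.le
    rw [natDegree_sub_C] at h1
    omega
  obtain ⟨c, hc⟩ := IsAlgClosed.exists_root _ this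
  refine ⟨c, ?_⟩
  simpa [sub_eq_zero] using hc

theorem infinite_collision [IsAlgClosed K] (b : K) :
    (collisionSet (ff K p) (b + 1) (b + 2) b).Infinite := by
  have h2 := hp.out.two_le
  have hd : 2 ≤ (ff K p).natDegree := by rw [natDegree_ff]; nlinarith
  have ex : ∀ r : ℕ, ∃ c : K, (fun x => (ff K p).eval x + c)^[p ^ r] b + 1 = b := by
    intro r
    obtain ⟨k, hk⟩ : ∃ k, p ^ r = k + 1 :=
      Nat.exists_eq_succ_of_ne_zero (pow_ne_zero _ hp.out.ne_zero)
    obtain ⟨c, hc⟩ := exists_root_of_natDegree _ (natDegree_orb _ hd b k) (b - 1)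
    refine ⟨c, ?_⟩
    rw [hk, ← eval_orb, hc]; ring
  choose c hc using ex
  have hlt : ∀ r s, r < s → c r ≠ c s := by
    intro r s hrs e
    obtain ⟨t, rfl⟩ := Nat.exists_eq_add_of_lt hrs
    have h1 := iter_mul p (c r) b (p ^ r) (hc r) (p ^ (t + 1))
    have h3 := hc (r + t + 1)
    rw [← pow_add, ← add_assoc, e] at h1
    have h4 : ((p ^ (t + 1) : ℕ) : K) = 0 := by
      rw [Nat.cast_pow, CharP.cast_eq_zero K p, zero_pow (Nat.succ_ne_zero t)]
    rw [h4, add_zero] at h1
    rw [h1] at h3
    simp at h3
  have hinj : Function.Injective c := by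
    intro r s e
    rcases lt_trichotomy r s with h | h | h
    · exact absurd e (hlt r s h)
    · exact h
    · exact absurd e.symm (hlt s r h)
  refine Set.infinite_of_injective_forall_mem hinj fun r => ?_
  have hpos : 1 ≤ p ^ r := Nat.one_le_pow _ _ hp.out.pos
  refine ⟨p ^ r, p ^ r * 2, hpos, by omega, ?_, ?_⟩
  · have := iter_add_nat p (c r) (p ^ r) b 1
    rw [Nat.cast_one] at this
    rw [this, hc r]
  · have := iter_add_nat p (c r) (p ^ r * 2) b 2
    rw [Nat.cast_ofNat] at this
    rw [this]
    have h5 := iter_mul p (c r) b (p ^ r) (hc r) 2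
    rwa [Nat.cast_ofNat] at h5

theorem not_additive [IsAlgClosed K] : ¬ IsAdditive (ff K p) := by
  have h2 := hp.out.two_le
  have hm : 1 ≤ (X ^ p - X : Polynomial K).natDegree := by
    rw [natDegree_sub_eq_left_of_natDegree_lt] <;> simp <;> omega
  have hpl : 1 ≤ (X ^ p + X : Polynomial K).natDegree := by
    rw [natDegree_add_eq_left_of_natDegree_lt] <;> simp <;> omega
  obtain ⟨u, hu⟩ := exists_root_of_natDegree _ hpl 1
  obtain ⟨x, hx⟩ := exists_root_of_natDegree _ hm u
  obtain ⟨y, hy⟩ := exists_root_of_natDegree _ hm 1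
  simp only [eval_add, eval_sub, eval_pow, eval_X] at hu hx hy
  intro h
  have h1 := h x y
  have h3 : (x + y) ^ p - (x + y) = u + 1 := by rw [add_pow_char, ← hx, ← hy]; ring
  rw [eval_ff, eval_ff, eval_ff, h3, hx, hy, pow_succ (u + 1), add_pow_char, pow_succ u] at h1
  simp only [one_pow] at h1
  have : u ^ p + u = 0 := by linear_combination h1
  rw [hu] at this
  exact one_ne_zero this

end aux

theorem result (p : ℕ) [Fact p.Prime] :
    ∃ (L : Type) (_ : Field L) (_ : CharP L p) (_ : Algebra (ZMod p) L)
      (f : Polynomial (AlgebraicClosure L)) (α₁ α₂ β : L),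
      (∀ i, f.coeff i ∈ algebraicClosure (ZMod p) (AlgebraicClosure L)) ∧
      2 ≤ f.natDegree ∧ f.coeff 0 = 0 ∧ ¬ IsAdditive f ∧
      algebraMap L (AlgebraicClosure L) α₁ ∉ algebraicClosure (ZMod p) (AlgebraicClosure L) ∧
      algebraMap L (AlgebraicClosure L) α₂ ∉ algebraicClosure (ZMod p) (AlgebraicClosure L) ∧
      algebraMap L (AlgebraicClosure L) β ∉ algebraicClosure (ZMod p) (AlgebraicClosure L) ∧
      α₁ ≠ β ∧ (p ≠ 2 → α₂ ≠ β) ∧
      (collisionSet f (algebraMap L (AlgebraicClosure L) α₁) (algebraMap L (AlgebraicClosure L) α₂)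
        (algebraMap L (AlgebraicClosure L) β)).Infinite ∧
      f.eval (algebraMap L (AlgebraicClosure L) α₁) ≠
        f.eval (algebraMap L (AlgebraicClosure L) α₂) := by
  have h2 := (Fact.out : p.Prime).two_le
  have hch : CharP (RatFunc (ZMod p)) p := inferInstance
  have hch' : CharP (AlgebraicClosure (RatFunc (ZMod p))) p := inferInstance
  have hT : algebraMap (RatFunc (ZMod p)) (AlgebraicClosure (RatFunc (ZMod p))) RatFunc.X ∉
      algebraicClosure (ZMod p) (AlgebraicClosure (RatFunc (ZMod p))) := by
    rw [mem_algebraicClosure_iff, isAlgebraic_algebraMap_iff (RingHom.injective _)]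
    exact RatFunc.transcendental_X
  refine ⟨RatFunc (ZMod p), inferInstance, hch, inferInstance,
    ff (AlgebraicClosure (RatFunc (ZMod p))) p, RatFunc.X + 1, RatFunc.X + 2, RatFunc.X,
    ?_, ?_, ?_, not_additive p, ?_, ?_, hT, ?_, ?_, ?_, ?_⟩
  · intro i
    have : ff (AlgebraicClosure (RatFunc (ZMod p))) p =
        (ff (ZMod p) p).map (algebraMap (ZMod p) _) := by simp [ff]
    rw [this, coeff_map]
    exact IntermediateField.algebraMap_mem _ _
  · rw [natDegree_ff]; nlinarith
  · rw [coeff_zero_eq_eval_zero, eval_ff, zero_pow (by omega), sub_zero, zero_pow (by omega),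
      add_zero]
  · intro h
    apply hT
    rw [map_add, map_one] at h
    simpa using sub_mem h (one_mem _)
  · intro h
    apply hT
    rw [map_add, map_ofNat] at h
    have h3 := sub_mem (sub_mem h (one_mem _)) (one_mem _)
    convert h3 using 1
    ring
  · simp
  · intro hp2 h
    have h3 : ((2 : ℕ) : RatFunc (ZMod p)) = 0 := by
      rw [Nat.cast_ofNat]; linear_combination h
    rw [CharP.cast_eq_zero_iff _ p] at h3
    exact hp2 ((Nat.prime_dvd_prime_iff_eq Fact.out Nat.prime_two).1 h3)
  · rw [map_add, map_add, map_one, map_ofNat]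
    exact infinite_collision p _
  · rw [map_add, map_add, map_one, map_ofNat, ← one_add_one_eq_two, ← add_assoc,
      eval_ff_add_one p (_ + 1)]
    simp

end Pool.Agent.Results.MP_a5410e_nt.Counterexample
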