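import Pool.Agent.Lib.MP_a5410e_nt.Cst

/-!
Colliding orbits in characteristic `p`: the polynomials `f` for which the conjectured criterion
`f(α₁) = f(α₂)` is correct are exactly those without a chain of translations.
-/

set_option autoImplicit false

open Polynomial Pool.Agent.Lib.MP_a5410e_nt

namespace Pool.Agent.Results.MP_a5410e_nt.Dichotomy

/-- The set of parameters `c` such that `b` is in the strict forward orbits of `a₁` and of `a₂`
under `x ↦ f(x) + c`. -/
def collisionSet {K : Type} [Field K] (f : Polynomial K) (a₁ a₂ b : K) : Set K :=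
  {c | ∃ m n : ℕ, 1 ≤ m ∧ 1 ≤ n ∧
    (fun x => f.eval x + c)^[m] a₁ = b ∧ (fun x => f.eval x + c)^[n] a₂ = b}

/-- There are constants `τ 0 ≠ 0, τ 1, τ 2, …` with `f (x + τ n) = f x + τ (n + 1)` for all `x`. -/
def HasTranslationChain {K : Type} [Field K] (f : Polynomial K) : Prop :=
  ∃ τ : ℕ → K, τ 0 ≠ 0 ∧ ∀ (n : ℕ) (x : K), f.eval (x + τ n) = f.eval x + τ (n + 1)

theorem collisionSet_map {k K : Type} [Field k] [Field K] [Algebra k K] (g : k[X]) (a₁ a₂ b : K) :
    collisionSet (g.map (algebraMap k K)) a₁ a₂ b = coll g a₁ a₂ b := by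
  simp only [collisionSet, coll, orb, eval_map_algebraMap]

theorem collisionSet_eq {K : Type} [Field K] (f : K[X]) (a₁ a₂ b : K) :
    collisionSet f a₁ a₂ b = coll f a₁ a₂ b := by
  rw [← collisionSet_map, Algebra.algebraMap_self, Polynomial.map_id]

theorem chain_iff {K : Type} [Field K] [IsAlgClosed K] (f : K[X]) :
    HasTranslationChain f ↔ Chain f := by
  refine exists_congr fun τ => and_congr_right fun _ => forall_congr' fun n => ⟨fun h => ?_, ?_⟩
  · exact Polynomial.funext fun x => by simp [eval_comp, h]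
  · intro h x
    simpa [eval_comp] using congrArg (eval x) h

theorem chain_map {k K : Type} [Field k] [Field K] [Algebra k K] {g : k[X]} (h : Chain g) :
    Chain (g.map (algebraMap k K)) := by
  obtain ⟨τ, h0, h1⟩ := h
  refine ⟨fun n => algebraMap k K (τ n), (_root_.map_ne_zero _).mpr h0, fun n => ?_⟩
  have := congrArg (Polynomial.map (algebraMap k K)) (h1 n)
  simpa [map_comp] using this

/-- If `p` does not divide the degree there is no chain of translations. -/
theorem no_chain_of_not_dvd (p : ℕ) {K : Type} [Field K] [IsAlgClosed K] [CharP K p] (f : K[X])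
    (hd : 2 ≤ f.natDegree) (h : ¬ p ∣ f.natDegree) : ¬ HasTranslationChain f := by
  rw [chain_iff]
  exact not_chain_of_tame hd fun h0 => h ((CharP.cast_eq_zero_iff K p _).mp h0)

theorem result (p : ℕ) [Fact p.Prime] (K : Type) [Field K] [IsAlgClosed K] [CharP K p]
    [Algebra (ZMod p) K] (hK : ∃ t : K, t ∉ algebraicClosure (ZMod p) K) (f : Polynomial K)
    (hf : ∀ i, f.coeff i ∈ algebraicClosure (ZMod p) K) (hd : 2 ≤ f.natDegree) :
    (∀ α₁ α₂ β : K,
      (α₁ ∉ algebraicClosure (ZMod p) K ∨ α₂ ∉ algebraicClosure (ZMod p) K ∨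
        β ∉ algebraicClosure (ZMod p) K) →
      ((collisionSet f α₁ α₂ β).Infinite ↔ f.eval α₁ = f.eval α₂)) ↔
    ¬ HasTranslationChain f := by
  simp only [mem_algebraicClosure_iff] at hK hf ⊢
  rw [chain_iff]
  constructor
  · intro h hch
    obtain ⟨t, ht⟩ := hK
    obtain ⟨a, h1, h2⟩ := converse hd p hch t
    rw [← collisionSet_eq] at h1
    exact h2 ((h a t t (Or.inr (Or.inl ht))).mp h1)
  intro hch α₁ α₂ β hyp
  refine ⟨fun hinf => ?_, fun h => ?_⟩
  swap
  · rw [collisionSet_eq]
    refine infinite_of_merge hd β (i := 1) fun c => ?_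
    rw [orb_succ, orb_succ, orb_zero, orb_zero, coe_aeval_eq_eval, coe_aeval_eq_eval, h]
  have key : ∀ t : K, Transcendental (ZMod p) t → ∃ (k : Type) (_ : Field k) (_ : Algebra k K)
      (_ : IsAlgClosed k) (_ : CharP k p) (g : k[X]), g.map (algebraMap k K) = f ∧
      (∀ x : K, IsAlgebraic (ZMod p) x → ∃ c : k, algebraMap k K c = x) ∧ Transcendental k t ∧
      ∀ a : K, Transcendental k a → ∀ x, AlgOver k a x := by
    intro t ht
    obtain ⟨k, i1, i2, i3, h1, h2, h3⟩ := exists_constants ht
    obtain ⟨g, hg⟩ := (mem_lifts f).mp ((lifts_iff_coeff_lifts (f := algebraMap k K) f).mpr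
      fun n => h1 _ (hf n))
    exact ⟨k, i1, i2, i3, RingHom.charP (algebraMap k K) (RingHom.injective _) p, g, hg, h1, h2, h3⟩
  by_cases a1 : IsAlgebraic (ZMod p) α₁
  · by_cases a2 : IsAlgebraic (ZMod p) α₂
    · have hβ := (hyp.resolve_left (not_not.mpr a1)).resolve_left (not_not.mpr a2)
      obtain ⟨k, i1, i2, i3, i4, g, rfl, h1, h2, -⟩ := key β hβ
      obtain ⟨a₁, rfl⟩ := h1 _ a1
      obtain ⟨a₂, rfl⟩ := h1 _ a2
      rw [natDegree_map] at hd
      rw [collisionSet_map] at hinf
      rw [eval_map_algebraMap, eval_map_algebraMap, aeval_algebraMap_apply, aeval_algebraMap_apply,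
        main_const' hd p (fun h => hch (chain_map h)) h2 hinf.nonempty]
    · obtain ⟨k, i1, i2, i3, i4, g, rfl, -, h2, h3⟩ := key α₂ a2
      rw [natDegree_map] at hd
      rw [collisionSet_map, coll_comm] at hinf
      rw [eval_map_algebraMap, eval_map_algebraMap]
      exact (main_trans hd p h3 (fun h => hch (chain_map h)) h2 hinf).symm
  · obtain ⟨k, i1, i2, i3, i4, g, rfl, -, h2, h3⟩ := key α₁ a1
    rw [natDegree_map] at hd
    rw [collisionSet_map] at hinf
    rw [eval_map_algebraMap, eval_map_algebraMap]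
    exact main_trans hd p h3 (fun h => hch (chain_map h)) h2 hinf

end Pool.Agent.Results.MP_a5410e_nt.Dichotomy
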